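import Pool.Agent.Helper63.P705.NR.Goals

/-!
# MP_705522_gt, packet NR-GC: constants for `θ ∈ [0.49, 1/2)`
-/

namespace Pool.Agent.Helper38.NR

open MeasureTheory Set Filter Topology
open Pool.Agent.Helper53.PT
open Pool.Agent.Helper63.P705.NR

theorem sg_sq {θ : ℝ} (h0 : 0 < θ) (h1 : θ < 1 / 2) :
    sg θ ^ 2 = Real.pi * θ / Real.sin (Real.pi * θ) := by
  have hg1 : 0 < Real.Gamma (1 + θ) := Real.Gamma_pos_of_pos (by linarith)
  have hg2 : 0 < Real.Gamma (1 - θ) := Real.Gamma_pos_of_pos (by linarith)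
  unfold sg
  rw [Real.sq_sqrt (by positivity), add_comm, Real.Gamma_add_one h0.ne', mul_assoc,
    Real.Gamma_mul_Gamma_one_sub]
  ring

theorem sin_low {θ : ℝ} (h0 : 0.49 ≤ θ) (h1 : θ < 1 / 2) : 0.999 ≤ Real.sin (Real.pi * θ) := by
  have hp := Real.pi_gt_three
  have hp' := Real.pi_lt_d2
  have e : Real.sin (Real.pi * θ) = Real.cos (Real.pi / 2 - Real.pi * θ) := by
    rw [Real.cos_pi_div_two_sub]
  rw [e]
  have h := Real.one_sub_sq_div_two_le_cos (x := Real.pi / 2 - Real.pi * θ)
  have h2 : 0 ≤ Real.pi / 2 - Real.pi * θ := by nlinarith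
  have h3 : Real.pi / 2 - Real.pi * θ ≤ 0.0315 := by nlinarith
  nlinarith

theorem mo_half : mo (1 / 2) 2 = 3 := by
  have hg : 0 < Real.Gamma (1 / 2) := Real.Gamma_pos_of_pos (by norm_num)
  have e1 : Real.Gamma (1 + (2 * ((2 : ℕ) : ℝ) - 1) * (1 / 2)) = 3 / 2 * (1 / 2 * Real.Gamma (1 / 2)) := by
    rw [show (1 : ℝ) + (2 * ((2 : ℕ) : ℝ) - 1) * (1 / 2) = 1 / 2 + 1 + 1 by push_cast; norm_num,
      Real.Gamma_add_one (by norm_num), Real.Gamma_add_one (by norm_num)]
    norm_num
  have e2 : Real.Gamma (1 + 1 / 2) = 1 / 2 * Real.Gamma (1 / 2) := by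
    rw [add_comm, Real.Gamma_add_one (by norm_num)]
  unfold mo
  rw [e1, e2, show (1 : ℝ) - 1 / 2 = 1 / 2 by norm_num]
  field_simp

theorem mo_le {θ : ℝ} (h0 : 0 < θ) (h1 : θ < 1 / 2) : mo θ 2 ≤ 3 := by
  have := mo_mono h0 h1.le le_rfl 2
  rw [mo_half] at this
  exact this

theorem gC : GC := by
  intro gD gM θ h0 h1
  have h00 : 0 < θ := by linarith
  obtain ⟨hk, hsg, hzc, hzb, -, -, hzi, hnu⟩ := gD θ h00 h1
  obtain ⟨M1, M2, M3, M4, M5, M6, M7, M8⟩ := gM gD θ h00 h1
  have hmo := mo_le h00 h1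
  -- bounds of `sg`
  have hsq := sg_sq h00 h1
  have hsl := sin_low h0 h1
  have hsu := Real.sin_le_one (Real.pi * θ)
  have hs0 : 0 < Real.sin (Real.pi * θ) := by linarith
  have hp1 := Real.pi_gt_d6
  have hp2 := Real.pi_lt_d6
  have hA : sg θ ^ 2 ≤ 1.5725 := by
    rw [hsq, div_le_iff₀ hs0]
    nlinarith
  have hB : 1.53936 ≤ sg θ ^ 2 := by
    rw [hsq, le_div_iff₀ hs0]
    nlinarith
  have hC1 : 0.797 ≤ 1 / sg θ := by
    rw [le_div_iff₀ hsg]
    nlinarith
  have hC2 : 1 / sg θ ≤ 0.806 := by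
    rw [div_le_iff₀ hsg]
    nlinarith
  set p : ℝ := 1 / θ - 2 with hp
  have hp0 : 0 < p := by
    have : 2 < 1 / θ := by
      rw [lt_div_iff₀ h00]; linarith
    linarith
  have hp3 : p ≤ 0.05 := by
    have : 1 / θ ≤ 2.05 := by
      rw [div_le_iff₀ h00]; nlinarith
    linarith
  -- `κ ∫ y^p z = 1`
  have hI : kap θ * ∫ y in Ioi (0 : ℝ), y ^ p * zf θ y = 1 := by
    rw [← integral_const_mul, ← M4]
    refine integral_congr_ae (Eventually.of_forall fun y => ?_)
    simp only [ff, vf]
    ring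
  have hip : IntegrableOn (fun y => y ^ p * zf θ y) (Ioi 0) := hzi p (by linarith)
  have hi0 : IntegrableOn (fun y => zf θ y) (Ioi 0) := by
    have := hzi 0 (by norm_num)
    refine this.congr_fun (fun y _ => ?_) measurableSet_Ioi
    simp
  have hi2 : IntegrableOn (fun y => y ^ 2 * zf θ y) (Ioi 0) := by
    have := hzi 2 (by norm_num)
    refine this.congr_fun (fun y _ => ?_) measurableSet_Ioi
    simp
  have hz0 : ∀ y ∈ Ioi (0 : ℝ), 0 ≤ zf θ y := fun y hy => (hzb y (le_of_lt hy)).1.le
  have hK1 : 1 ≤ kap θ := by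
    have hle : ∫ y in Ioi (0 : ℝ), y ^ p * zf θ y ≤ 1 := by
      have h1 : ∫ y in Ioi (0 : ℝ), y ^ p * zf θ y ≤
          ∫ y in Ioi (0 : ℝ), (p / 2 * (y ^ 2 * zf θ y) + (1 - p / 2) * zf θ y) := by
        refine setIntegral_mono_on hip ((hi2.const_mul _).add (hi0.const_mul _)) measurableSet_Ioi ?_
        intro y hy
        have hy0 : 0 < y := hy
        have hg := Real.geom_mean_le_arith_mean2_weighted (w₁ := p / 2) (w₂ := 1 - p / 2)
          (p₁ := y ^ 2) (p₂ := 1) (by linarith) (by linarith) (by positivity) (by norm_num) (by ring)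
        rw [Real.one_rpow, mul_one, mul_one] at hg
        have e : (y ^ 2 : ℝ) ^ (p / 2) = y ^ p := by
          rw [← Real.rpow_natCast y 2, ← Real.rpow_mul hy0.le]
          congr 1
          push_cast
          ring
        rw [e] at hg
        have := mul_le_mul_of_nonneg_right hg (hz0 y hy)
        linarith
      rw [integral_add (hi2.const_mul _) (hi0.const_mul _), integral_const_mul, integral_const_mul,
        M1, M3] at h1
      nlinarith
    by_contra hcon
    push Not at hcon
    have hnn : 0 ≤ ∫ y in Ioi (0 : ℝ), y ^ p * zf θ y :=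
      setIntegral_nonneg measurableSet_Ioi
        (fun y hy => mul_nonneg (Real.rpow_nonneg (le_of_lt hy) _) (hz0 y hy))
    nlinarith
  have hK2 : kap θ ≤ Real.exp (0.806 * p) := by
    -- `∫ y^p z ≥ e^(-.806 p)`
    have hlogi : IntegrableOn (fun y => Real.log y * zf θ y) (Ioc 0 1) := by
      have h1 : IntervalIntegrable Real.log volume 0 1 := intervalIntegral.intervalIntegrable_log'
      rw [intervalIntegrable_iff_integrableOn_Ioc_of_le zero_le_one] at h1
      exact h1.mul_continuousOn_of_subset hzc.continuousOn measurableSet_Ioc isCompact_Icc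
        Ioc_subset_Icc_self
    have hlog1 : -(0.806 : ℝ) ≤ ∫ y in Ioc (0 : ℝ) 1, Real.log y * zf θ y := by
      have h1 : IntervalIntegrable Real.log volume 0 1 := intervalIntegral.intervalIntegrable_log'
      rw [intervalIntegrable_iff_integrableOn_Ioc_of_le zero_le_one] at h1
      have h2 : ∫ y in Ioc (0 : ℝ) 1, Real.log y * (1 / sg θ) ≤
          ∫ y in Ioc (0 : ℝ) 1, Real.log y * zf θ y := by
        refine setIntegral_mono_on (h1.mul_const _) hlogi measurableSet_Ioc ?_
        intro y hy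
        exact mul_le_mul_of_nonpos_left (hzb y hy.1.le).2 (Real.log_nonpos hy.1.le hy.2)
      have h3 : ∫ y in Ioc (0 : ℝ) 1, Real.log y = -1 := by
        rw [← intervalIntegral.integral_of_le zero_le_one, integral_log]
        norm_num
      rw [integral_mul_const, h3] at h2
      linarith
    have hli : IntegrableOn ((Ioc (0 : ℝ) 1).indicator (fun y => Real.log y * zf θ y)) (Ioi 0) :=
      (hlogi.integrable_indicator measurableSet_Ioc).integrableOn
    have hlow : 1 ≤ Real.exp (0.806 * p) * ∫ y in Ioi (0 : ℝ), y ^ p * zf θ y := by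
      have h1 : ∫ y in Ioi (0 : ℝ), ((1 + 0.806 * p) * zf θ y +
          p * (Ioc (0 : ℝ) 1).indicator (fun y => Real.log y * zf θ y) y) ≤
          ∫ y in Ioi (0 : ℝ), Real.exp (0.806 * p) * (y ^ p * zf θ y) := by
        refine setIntegral_mono_on ((hi0.const_mul _).add (hli.const_mul _)) (hip.const_mul _)
          measurableSet_Ioi ?_
        intro y hy
        have hy0 : 0 < y := hy
        have hz := hz0 y hy
        have e : Real.exp (0.806 * p) * (y ^ p * zf θ y) =
            Real.exp (p * (Real.log y + 0.806)) * zf θ y := by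
          rw [Real.rpow_def_of_pos hy0, ← mul_assoc, ← Real.exp_add]
          congr 2
          ring
        rw [e]
        have hexp := Real.add_one_le_exp (p * (Real.log y + 0.806))
        have hexp2 := mul_le_mul_of_nonneg_right hexp hz
        by_cases hy1 : y ≤ 1
        · rw [indicator_of_mem (show y ∈ Ioc (0 : ℝ) 1 from ⟨hy0, hy1⟩)]
          nlinarith
        · rw [indicator_of_notMem (fun h : y ∈ Ioc (0 : ℝ) 1 => hy1 h.2)]
          have hl : 0 ≤ Real.log y := Real.log_nonneg (le_of_not_ge hy1)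
          have : 0 ≤ p * Real.log y * zf θ y := by positivity
          nlinarith
      rw [integral_const_mul, integral_add (hi0.const_mul _) (hli.const_mul _), integral_const_mul,
        integral_const_mul, M1] at h1
      have h2 : ∫ y in Ioi (0 : ℝ), (Ioc (0 : ℝ) 1).indicator (fun y => Real.log y * zf θ y) y =
          ∫ y in Ioc (0 : ℝ) 1, Real.log y * zf θ y := by
        rw [setIntegral_indicator measurableSet_Ioc]
        congr 2
        ext y
        simp only [mem_inter_iff, mem_Ioi, mem_Ioc]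
        tauto
      rw [h2] at h1
      nlinarith
    have : kap θ * 1 ≤ kap θ * (Real.exp (0.806 * p) * ∫ y in Ioi (0 : ℝ), y ^ p * zf θ y) :=
      mul_le_mul_of_nonneg_left hlow hk.le
    have e : kap θ * (Real.exp (0.806 * p) * ∫ y in Ioi (0 : ℝ), y ^ p * zf θ y) =
        Real.exp (0.806 * p) * (kap θ * ∫ y in Ioi (0 : ℝ), y ^ p * zf θ y) := by ring
    rw [e, hI] at this
    linarith
  have hM3 : m3 θ ≤ 1.7321 := by
    have hlaw := (aLAW h00 h1).2.2.1
    have hf : ∀ k : ℕ, IntegrableOn (fun y => y ^ k * ff θ y) (Ioi 0) := by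
      intro k
      have := ((hnu (fun y => y ^ k)).1).1 (hlaw k)
      refine this.congr_fun (fun y _ => ?_) measurableSet_Ioi
      ring
    have h1 : ∫ y in Ioi (0 : ℝ), y ^ 3 * ff θ y ≤
        ∫ y in Ioi (0 : ℝ), (0.866 * (y ^ 2 * ff θ y) + 0.5 / 1.732 * (y ^ 4 * ff θ y)) := by
      refine setIntegral_mono_on (hf 3) (((hf 2).const_mul _).add ((hf 4).const_mul _))
        measurableSet_Ioi ?_
      intro y hy
      have hy0 : 0 < y := hy
      have hff : 0 ≤ ff θ y := by
        unfold ff vf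
        have := hz0 y hy
        positivity
      have hh : y ^ 3 ≤ 0.866 * y ^ 2 + 0.5 / 1.732 * y ^ 4 := by
        have h5 : 0 ≤ y ^ 2 * (y - 1.732) ^ 2 := by positivity
        nlinarith
      have := mul_le_mul_of_nonneg_right hh hff
      linarith
    rw [integral_add ((hf 2).const_mul _) ((hf 4).const_mul _), integral_const_mul,
      integral_const_mul, M6, M7, M8] at h1
    nlinarith
  exact ⟨hC1, hC2, hK1, hK2, hmo, hM3⟩

end Pool.Agent.Helper38.NR
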